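import Mathlib

/-!
# Magnetohydrostatic equilibria on solid toroidal domains: definitions

`R3` is three-dimensional space with its coordinates.  All notions below are spelled out in
elementary terms: smooth parametrisations, partial derivatives and the topology of `ℝ³`.
-/

open Set Real

open scoped ContDiff

namespace Pool.Agent.H29.Grad

/-- Three-dimensional space. -/
abbrev R3 := Fin 3 → ℝ

/-- The `i`-th partial derivative of `f` at `x`. -/
noncomputable def pd (i : Fin 3) (f : R3 → ℝ) (x : R3) : ℝ := fderiv ℝ f x (Pi.single i 1)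

/-- The gradient `∇f`. -/
noncomputable def gradient (f : R3 → ℝ) (x : R3) : R3 := fun i => pd i f x

/-- The divergence `div X`. -/
noncomputable def divergence (X : R3 → R3) (x : R3) : ℝ := ∑ i, pd i (fun y => X y i) x

/-- The curl `curl X`. -/
noncomputable def curl (X : R3 → R3) (x : R3) : R3 :=
  ![pd 1 (fun y => X y 2) x - pd 2 (fun y => X y 1) x,
    pd 2 (fun y => X y 0) x - pd 0 (fun y => X y 2) x,
    pd 0 (fun y => X y 1) x - pd 1 (fun y => X y 0) x]

/-- `v` is tangent to `S` at `x`: it is the velocity at `x` of a curve lying in `S`.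
For a smooth surface `S` this says `v ∈ T_x S`. -/
def IsTangentTo (S : Set R3) (x v : R3) : Prop :=
  ∃ c : ℝ → R3, c 0 = x ∧ (∀ t, c t ∈ S) ∧ HasDerivAt c v 0

/-- The standard open solid torus of radius `r` is `{w ∈ ℂ : |w| < r} × ℝ / 2πℤ`; we work with
its cover `{w : |w| < r} × ℝ`. -/
def openTube (r : ℝ) : Set (ℂ × ℝ) := {q | ‖q.1‖ < r}

/-- A solid toroidal domain: the image of the closed solid torus `D² × S¹` (with `D²` the closed
unit disc in `ℂ` and `S¹ = ℝ / 2πℤ`) under a smooth embedding into `ℝ³` of a larger open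
solid torus. -/
def IsSolidTorus (M : Set R3) : Prop :=
  ∃ (r : ℝ) (Φ : ℂ × ℝ → R3), 1 < r ∧ ContDiffOn ℝ ∞ Φ (openTube r) ∧
    (∀ q ∈ openTube r, Function.Injective (fderiv ℝ Φ q)) ∧
    (∀ w θ, Φ (w, θ + 2 * π) = Φ (w, θ)) ∧
    (∀ q ∈ openTube r, ∀ q' ∈ openTube r, Φ q = Φ q' →
      q.1 = q'.1 ∧ ∃ n : ℤ, q'.2 = q.2 + n * (2 * π)) ∧
    M = Φ '' {q | ‖q.1‖ ≤ 1}

/-- A smoothly embedded torus `S¹ × S¹` in `ℝ³`. -/
def IsEmbeddedTorus (S : Set R3) : Prop :=
  ∃ Ψ : ℝ × ℝ → R3, ContDiff ℝ ∞ Ψ ∧ (∀ q, Function.Injective (fderiv ℝ Ψ q)) ∧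
    (∀ φ θ, Ψ (φ + 2 * π, θ) = Ψ (φ, θ) ∧ Ψ (φ, θ + 2 * π) = Ψ (φ, θ)) ∧
    (∀ q q', Ψ q = Ψ q' → ∃ m n : ℤ, q' = (q.1 + m * (2 * π), q.2 + n * (2 * π))) ∧
    S = range Ψ

/-- A smoothly embedded circle in `ℝ³`. -/
def IsEmbeddedCircle (γ : Set R3) : Prop :=
  ∃ c : ℝ → R3, ContDiff ℝ ∞ c ∧ (∀ t, deriv c t ≠ 0) ∧ (∀ t, c (t + 2 * π) = c t) ∧
    (∀ s t, c s = c t → ∃ n : ℤ, t = s + n * (2 * π)) ∧ γ = range c

/-- `R` is the compact regular domain bounded by the embedded closed surface `S`: it is compact,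
it is the closure of its interior, and its boundary is `S`. -/
def IsDomainBoundedBy (R S : Set R3) : Prop :=
  IsCompact R ∧ closure (interior R) = R ∧ frontier R = S

/-- `(X, p)` is a magnetohydrostatic (MHD) equilibrium on `M`: both are smooth (on a neighbourhood
of `M`), `curl X × X = ∇p` and `div X = 0` on `M`, and `X` is tangent to `∂M`. -/
structure IsMHDEquilibrium (M : Set R3) (X : R3 → R3) (p : R3 → ℝ) : Prop where
  smooth : ∃ U, IsOpen U ∧ M ⊆ U ∧ ContDiffOn ℝ ∞ X U ∧ ContDiffOn ℝ ∞ p U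
  balance : ∀ x ∈ M, crossProduct (curl X x) (X x) = gradient p x
  divFree : ∀ x ∈ M, divergence X x = 0
  tangent : ∀ x ∈ frontier M, IsTangentTo (frontier M) x (X x)

/-- The level set in `M` of the function `p` through the point `x`. -/
def levelSet (M : Set R3) (p : R3 → ℝ) (x : R3) : Set R3 := {y | y ∈ M ∧ p y = p x}

/-- `p` has toroidally nested level sets on `M`, with axis an embedded circle `γ ⊆ Int M`:
every level set is either `γ` or a regular level set which is an embedded torus, and the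
compact domains `R S` bounded by the regular level sets `S` contain `γ` in their interiors and
are nested. -/
def HasToroidallyNestedLevelSets (M : Set R3) (p : R3 → ℝ) : Prop :=
  ∃ γ : Set R3, IsEmbeddedCircle γ ∧ γ ⊆ interior M ∧
    (∀ x ∈ M, levelSet M p x = γ ∨
      (IsEmbeddedTorus (levelSet M p x) ∧ ∀ y ∈ levelSet M p x, gradient p y ≠ 0)) ∧
    ∃ R : Set R3 → Set R3,
      (∀ x ∈ M \ γ, IsDomainBoundedBy (R (levelSet M p x)) (levelSet M p x) ∧
        γ ⊆ interior (R (levelSet M p x))) ∧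
      ∀ x ∈ M \ γ, ∀ y ∈ M \ γ,
        R (levelSet M p x) ⊆ R (levelSet M p y) ∨ R (levelSet M p y) ⊆ R (levelSet M p x)

/-- `(X, p)` is axisymmetric on `M`: for some rotation field `K x = b × (x - a)`, `b ≠ 0`, tangent
to `∂M`, the Lie derivatives `L_K X = DX K - DK X` and `L_K p` vanish on `M`. -/
def IsAxisymmetric (M : Set R3) (X : R3 → R3) (p : R3 → ℝ) : Prop :=
  ∃ b a : R3, b ≠ 0 ∧
    (∀ x ∈ frontier M, IsTangentTo (frontier M) x (crossProduct b (x - a))) ∧
    (∀ x ∈ M, fderiv ℝ X x (crossProduct b (x - a)) - crossProduct b (X x) = 0) ∧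
    ∀ x ∈ M, fderiv ℝ p x (crossProduct b (x - a)) = 0

end Pool.Agent.H29.Grad
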