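import Pool.Agent.H29.Grad.Defs

/-!
# The explicit example

With `Q = x² + 4 y²`, `D = 1 - (Q - 1)² - 4 z²` and `L = √D`, the field is
`X = (-(2 x z + 2 y L) / Q, (x L - 4 y z) / (2 Q), Q - 1)` on the open set `D > 0`, the pressure
is `p = -|X|² / 2 - (x² + y² + 4 z²) / 2`, and the solid torus is `{D > 0, p ≥ -87 / 128}`.
-/

namespace Pool.Agent.H29.Grad

/-- `Q = x² + 4 y²`. -/
def Q (x : R3) : ℝ := x 0 ^ 2 + 4 * x 1 ^ 2

/-- `D = 1 - (Q - 1)² - 4 z²`. -/
def D (x : R3) : ℝ := 1 - (Q x - 1) ^ 2 - 4 * x 2 ^ 2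

/-- `L = √D`. -/
noncomputable def L (x : R3) : ℝ := √(D x)

/-- The first component of the field. -/
noncomputable def U (x : R3) : ℝ := -(2 * x 0 * x 2 + 2 * x 1 * L x) / Q x

/-- Twice the second component of the field. -/
noncomputable def V (x : R3) : ℝ := (x 0 * L x - 4 * x 1 * x 2) / Q x

/-- The field `X`. -/
noncomputable def field (x : R3) : R3 := ![U x, V x / 2, Q x - 1]

/-- The pressure `p = -|X|²/2 - (x² + y² + 4 z²)/2`. -/
noncomputable def pressure (x : R3) : ℝ :=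
  -(U x ^ 2 + V x ^ 2 / 4 + (Q x - 1) ^ 2 + x 0 ^ 2 + x 1 ^ 2 + 4 * x 2 ^ 2) / 2

/-- The open set on which the field is defined. -/
def dom : Set R3 := {x | 0 < D x}

/-- The solid torus: the part of the domain where the pressure is at least `-87 / 128`. -/
def solidTorus : Set R3 := {x | 0 < D x ∧ -(87 / 128) ≤ pressure x}

end Pool.Agent.H29.Grad
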