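import Pool.Agent.H29.Grad.Example

/-!
# The explicit field

With `Q = x² + 4 y²`, `D = 1 - (Q - 1)² - 4 z²` and `L = √D`, the field is
`X = ( -(2 x z + 2 y L) / Q, (x L - 4 y z) / (2 Q), Q - 1 )`
on the open set `D > 0`.  It satisfies `div X = 0` and `(X · ∇) X = -(x, y, 4 z)`.
-/

open Set Real

open scoped ContDiff Topology

namespace Pool.Agent.H29.Grad

theorem contDiff_coord (i : Fin 3) : ContDiff ℝ ∞ (fun x : R3 => x i) :=
  (ContinuousLinearMap.proj (R := ℝ) (φ := fun _ : Fin 3 => ℝ) i).contDiff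

theorem contDiff_Q : ContDiff ℝ ∞ Q := by
  unfold Q
  exact ((contDiff_coord 0).pow 2).add (contDiff_const.mul ((contDiff_coord 1).pow 2))

theorem contDiff_D : ContDiff ℝ ∞ D := by
  unfold D
  exact (contDiff_const.sub ((contDiff_Q.sub contDiff_const).pow 2)).sub
    (contDiff_const.mul ((contDiff_coord 2).pow 2))

theorem isOpen_dom : IsOpen dom := isOpen_lt continuous_const contDiff_D.continuous

theorem Q_pos {x : R3} (hx : x ∈ dom) : 0 < Q x := by
  have h : 0 < 1 - (Q x - 1) ^ 2 - 4 * x 2 ^ 2 := hx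
  nlinarith [sq_nonneg (x 2), sq_nonneg (Q x)]

theorem L_pos {x : R3} (hx : x ∈ dom) : 0 < L x := Real.sqrt_pos.2 hx

theorem L_sq {x : R3} (hx : x ∈ dom) : L x ^ 2 = D x := Real.sq_sqrt (le_of_lt hx)

theorem rel_W {x : R3} (hx : x ∈ dom) : x 0 * U x + 2 * x 1 * V x = -2 * x 2 := by
  have hQ := (Q_pos hx).ne'
  unfold U V
  field_simp
  unfold Q
  ring

theorem rel_L {x : R3} (hx : x ∈ dom) : x 0 * V x - 2 * x 1 * U x = L x := by
  have hQ := (Q_pos hx).ne'
  unfold U V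
  field_simp
  unfold Q
  ring

theorem rel_E {x : R3} (hx : x ∈ dom) : U x ^ 2 + V x ^ 2 + Q x = 2 := by
  have hQ := (Q_pos hx).ne'
  have h1 := rel_W hx
  have h2 := rel_L hx
  have h3 := L_sq hx
  have h4 : Q x * (U x ^ 2 + V x ^ 2 + Q x - 2) = 0 := by
    have h5 : Q x * (U x ^ 2 + V x ^ 2) = (x 0 * U x + 2 * x 1 * V x) ^ 2 +
        (x 0 * V x - 2 * x 1 * U x) ^ 2 := by
      unfold Q
      ring
    have h6 : Q x * (U x ^ 2 + V x ^ 2) = 4 * x 2 ^ 2 + D x := by
      rw [h5, h1, h2, h3]; ring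
    have h7 : D x = 1 - (Q x - 1) ^ 2 - 4 * x 2 ^ 2 := rfl
    rw [h7] at h6
    linear_combination h6
  rcases mul_eq_zero.1 h4 with h | h
  · exact absurd h hQ
  · linarith

theorem contDiffOn_L : ContDiffOn ℝ ∞ L dom := by
  intro x hx
  exact (contDiff_D.contDiffAt.sqrt (ne_of_gt hx)).contDiffWithinAt

theorem contDiffOn_U : ContDiffOn ℝ ∞ U dom := by
  unfold U
  refine ContDiffOn.div ?_ contDiff_Q.contDiffOn fun x hx => (Q_pos hx).ne'
  refine ContDiffOn.neg ?_
  exact (((contDiff_const.mul (contDiff_coord 0)).mul (contDiff_coord 2)).contDiffOn).add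
    ((contDiff_const.mul (contDiff_coord 1)).contDiffOn.mul contDiffOn_L)

theorem contDiffOn_V : ContDiffOn ℝ ∞ V dom := by
  unfold V
  refine ContDiffOn.div ?_ contDiff_Q.contDiffOn fun x hx => (Q_pos hx).ne'
  exact ((contDiff_coord 0).contDiffOn.mul contDiffOn_L).sub
    (((contDiff_const.mul (contDiff_coord 1)).mul (contDiff_coord 2)).contDiffOn)

theorem contDiffOn_field : ContDiffOn ℝ ∞ field dom := by
  rw [contDiffOn_pi]
  intro i
  fin_cases i
  · exact contDiffOn_U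
  · exact contDiffOn_V.div_const 2
  · exact (contDiff_Q.sub contDiff_const).contDiffOn

theorem contDiffOn_pressure : ContDiffOn ℝ ∞ pressure dom := by
  unfold pressure
  refine ContDiffOn.div_const (ContDiffOn.neg ?_) 2
  exact (((((contDiffOn_U.pow 2).add ((contDiffOn_V.pow 2).div_const 4)).add
    ((contDiff_Q.sub contDiff_const).pow 2).contDiffOn).add
    ((contDiff_coord 0).pow 2).contDiffOn).add ((contDiff_coord 1).pow 2).contDiffOn).add
    (contDiff_const.mul ((contDiff_coord 2).pow 2)).contDiffOn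

theorem diff_U {x : R3} (hx : x ∈ dom) : DifferentiableAt ℝ U x :=
  (contDiffOn_U.contDiffAt (isOpen_dom.mem_nhds hx)).differentiableAt (by simp)

theorem diff_V {x : R3} (hx : x ∈ dom) : DifferentiableAt ℝ V x :=
  (contDiffOn_V.contDiffAt (isOpen_dom.mem_nhds hx)).differentiableAt (by simp)

theorem hasFDerivAt_coord (i : Fin 3) (x : R3) :
    HasFDerivAt (fun y : R3 => y i) (ContinuousLinearMap.proj (R := ℝ) (φ := fun _ : Fin 3 => ℝ) i) x :=
  (ContinuousLinearMap.proj (R := ℝ) (φ := fun _ : Fin 3 => ℝ) i).hasFDerivAt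

theorem hasFDerivAt_Q (x : R3) : HasFDerivAt Q
    ((2 * x 0) • ContinuousLinearMap.proj (R := ℝ) (φ := fun _ : Fin 3 => ℝ) 0 +
      (8 * x 1) • ContinuousLinearMap.proj (R := ℝ) (φ := fun _ : Fin 3 => ℝ) 1) x := by
  have h := ((hasFDerivAt_coord 0 x).pow 2).add (((hasFDerivAt_coord 1 x).pow 2).const_mul 4)
  refine h.congr_fderiv ?_
  ext v
  simp
  ring

/-- The derivatives of `U` and `V` satisfy the two linearised relations. -/
theorem deriv_rel {x : R3} (hx : x ∈ dom) (v : R3) :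
    U x * fderiv ℝ U x v + V x * fderiv ℝ V x v + x 0 * v 0 + 4 * x 1 * v 1 = 0 ∧
    x 0 * fderiv ℝ U x v + 2 * x 1 * fderiv ℝ V x v + 2 * v 2 + U x * v 0 + 2 * V x * v 1 = 0 := by
  have hU := (diff_U hx).hasFDerivAt
  have hV := (diff_V hx).hasFDerivAt
  have hnhds := isOpen_dom.mem_nhds hx
  constructor
  · have h1 : (fun y => U y ^ 2 + V y ^ 2 + Q y) =ᶠ[𝓝 x] fun _ => (2 : ℝ) := by
      filter_upwards [hnhds] with y hy using rel_E hy
    have h2 := ((hU.pow 2).add (hV.pow 2)).add (hasFDerivAt_Q x)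
    have h3 : HasFDerivAt (fun y => U y ^ 2 + V y ^ 2 + Q y) (0 : R3 →L[ℝ] ℝ) x :=
      (hasFDerivAt_const (2 : ℝ) x).congr_of_eventuallyEq h1
    have h4 := congrArg (fun A : R3 →L[ℝ] ℝ => A v) (h2.unique h3)
    simp at h4
    linarith
  · have h1 : (fun y : R3 => y 0 * U y + 2 * y 1 * V y + 2 * y 2) =ᶠ[𝓝 x] fun _ => (0 : ℝ) := by
      filter_upwards [hnhds] with y hy
      have := rel_W hy
      linarith
    have h2 := (((hasFDerivAt_coord 0 x).mul hU).add
      (((hasFDerivAt_coord 1 x).const_mul 2).mul hV)).add ((hasFDerivAt_coord 2 x).const_mul 2)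
    have h3 : HasFDerivAt (fun y : R3 => y 0 * U y + 2 * y 1 * V y + 2 * y 2) (0 : R3 →L[ℝ] ℝ) x :=
      (hasFDerivAt_const (0 : ℝ) x).congr_of_eventuallyEq h1
    have h4 := congrArg (fun A : R3 →L[ℝ] ℝ => A v) (h2.unique h3)
    simp at h4
    linarith

/-- The derivatives of `U` and `V`, multiplied by `L`. -/
theorem L_mul_deriv {x : R3} (hx : x ∈ dom) (v : R3) :
    L x * fderiv ℝ U x v = 2 * x 1 * (x 0 * v 0 + 4 * x 1 * v 1) -
        V x * (2 * v 2 + U x * v 0 + 2 * V x * v 1) ∧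
    L x * fderiv ℝ V x v = U x * (2 * v 2 + U x * v 0 + 2 * V x * v 1) -
        x 0 * (x 0 * v 0 + 4 * x 1 * v 1) := by
  obtain ⟨h1, h2⟩ := deriv_rel hx v
  have h3 := rel_L hx
  constructor
  · linear_combination (-fderiv ℝ U x v) * h3 + V x * h2 - 2 * x 1 * h1
  · linear_combination (-fderiv ℝ V x v) * h3 - U x * h2 + x 0 * h1

end Pool.Agent.H29.Grad
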