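import Pool.Agent.H29.Grad.Topology

/-!
# The solid torus, the equilibrium on it, and the nested level sets of the pressure
-/

open Set Real Filter

open scoped ContDiff Topology

namespace Pool.Agent.H29.Grad

theorem differentiableAt_Phi {q : ℂ × ℝ} (hq : q ∈ openTube 1) : DifferentiableAt ℝ Phi q :=
  (contDiffOn_Phi.contDiffAt ((isOpen_openTube 1).mem_nhds hq)).differentiableAt (by simp)

/-- Composition of the parametrisation with an immersion is an immersion. -/
theorem injective_comp {E : Type*} [NormedAddCommGroup E] [NormedSpace ℝ E] {A : E → ℂ × ℝ}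
    {A' : E →L[ℝ] ℂ × ℝ} {q : E} (hA : HasFDerivAt A A' q) (hA' : Function.Injective A')
    (hq : A q ∈ openTube 1) : Function.Injective (fderiv ℝ (fun e => Phi (A e)) q) := by
  have h := (differentiableAt_Phi hq).hasFDerivAt.comp q hA
  have h1 : fderiv ℝ (fun e => Phi (A e)) q = (fderiv ℝ Phi (A q)).comp A' := h.fderiv
  rw [h1]
  exact (injective_fderiv_Phi hq).comp hA'

theorem isSolidTorus_tor : IsSolidTorus (tor (1 / 2)) := by
  have hmem : ∀ q ∈ openTube (6 / 5), ((cen + (1 / 2 : ℝ) • q.1, q.2) : ℂ × ℝ) ∈ openTube 1 := by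
    intro q hq
    have hq' : ‖q.1‖ < 6 / 5 := hq
    apply norm_lt_one'
    rw [norm_smul]
    norm_num
    linarith
  refine ⟨6 / 5, fun q => Phi (cen + (1 / 2 : ℝ) • q.1, q.2), by norm_num, ?_, ?_, ?_, ?_, ?_⟩
  · have hA : ContDiff ℝ ∞ (fun q : ℂ × ℝ => ((cen + (1 / 2 : ℝ) • q.1, q.2) : ℂ × ℝ)) := by
      fun_prop
    exact contDiffOn_Phi.comp hA.contDiffOn hmem
  · intro q hq
    have hA : HasFDerivAt (fun q : ℂ × ℝ => ((cen + (1 / 2 : ℝ) • q.1, q.2) : ℂ × ℝ))
        (((1 / 2 : ℝ) • ContinuousLinearMap.fst ℝ ℂ ℝ).prod (ContinuousLinearMap.snd ℝ ℂ ℝ)) q :=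
      ((hasFDerivAt_fst.const_smul (1 / 2 : ℝ)).const_add cen).prodMk hasFDerivAt_snd
    refine injective_comp hA ?_ (hmem q hq)
    intro a b hab
    simp only [ContinuousLinearMap.prod_apply, smul_apply,
      ContinuousLinearMap.coe_fst', ContinuousLinearMap.coe_snd', Prod.mk.injEq] at hab
    refine Prod.ext ?_ hab.2
    exact smul_right_injective ℂ (by norm_num : (1 / 2 : ℝ) ≠ 0) hab.1
  · intro w θ
    exact Phi_periodic _ _
  · intro q hq q' hq' heq
    obtain ⟨h1, h2⟩ := Phi_inj (hmem q hq) (hmem q' hq') heq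
    refine ⟨?_, h2⟩
    have h3 := add_left_cancel h1
    exact smul_right_injective ℂ (by norm_num : (1 / 2 : ℝ) ≠ 0) h3
  · ext x
    constructor
    · rintro ⟨hx, hg⟩
      obtain ⟨θ, -, hθ⟩ := exists_Phi hx
      refine ⟨((2 : ℝ) • g x, θ), ?_, ?_⟩
      · change ‖(2 : ℝ) • g x‖ ≤ 1
        rw [norm_smul]
        norm_num
        linarith
      · change Phi (cen + (1 / 2 : ℝ) • ((2 : ℝ) • g x), θ) = x
        rw [smul_smul]
        norm_num
        rw [g, add_sub_cancel]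
        exact hθ
    · rintro ⟨⟨v, θ⟩, hv, rfl⟩
      have hv' : ‖v‖ ≤ 1 := hv
      have h1 : ‖(1 / 2 : ℝ) • v‖ ≤ 1 / 2 := by
        rw [norm_smul]; norm_num; linarith
      have h2 : ‖cen + (1 / 2 : ℝ) • v‖ < 1 := norm_lt_one' (by linarith)
      refine ⟨Phi_mem_dom h2 θ, ?_⟩
      change ‖g (Phi (cen + (1 / 2 : ℝ) • v, θ))‖ ≤ 1 / 2
      rw [g_Phi h2, add_sub_cancel_left]
      exact h1

theorem isEmbeddedTorus_sph {ρ : ℝ} (hρ0 : 0 < ρ) (hρ : ρ < 5 / 8) : IsEmbeddedTorus (sph ρ) := by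
  have hnorm : ∀ φ : ℝ, ‖(ρ : ℂ) * Complex.exp (φ * Complex.I)‖ = ρ := by
    intro φ
    rw [norm_mul, Complex.norm_exp_ofReal_mul_I, Complex.norm_real, mul_one, Real.norm_eq_abs,
      abs_of_pos hρ0]
  have hmem : ∀ q : ℝ × ℝ, ((cen + ρ * Complex.exp (q.1 * Complex.I), q.2) : ℂ × ℝ) ∈ openTube 1 := by
    intro q
    apply norm_lt_one'
    rw [hnorm]
    exact hρ
  have hd : ∀ t : ℝ, HasDerivAt (fun t : ℝ => cen + ρ * Complex.exp (t * Complex.I))
      (ρ * (Complex.exp (t * Complex.I) * Complex.I)) t := by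
    intro t
    have h := (((Complex.ofRealCLM.hasDerivAt (x := t)).mul_const Complex.I).cexp).const_mul (ρ : ℂ)
    have h' := h.const_add cen
    simpa using h'
  refine ⟨fun q => Phi (cen + ρ * Complex.exp (q.1 * Complex.I), q.2), ?_, ?_, ?_, ?_, ?_⟩
  · have hA : ContDiff ℝ ∞ (fun q : ℝ × ℝ =>
        ((cen + ρ * Complex.exp (q.1 * Complex.I), q.2) : ℂ × ℝ)) := by
      have h1 : ContDiff ℝ ∞ (fun t : ℝ => (t : ℂ)) := Complex.ofRealCLM.contDiff
      have h2 : ContDiff ℝ ∞ (fun q : ℝ × ℝ => (q.1 : ℂ) * Complex.I) :=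
        (h1.comp contDiff_fst).mul contDiff_const
      have h3 : ContDiff ℝ ∞ (fun q : ℝ × ℝ => Complex.exp ((q.1 : ℂ) * Complex.I)) := h2.cexp
      exact (contDiff_const.add (contDiff_const.mul h3)).prodMk contDiff_snd
    rw [← contDiffOn_univ]
    exact contDiffOn_Phi.comp hA.contDiffOn fun q _ => hmem q
  · intro q
    have hA : HasFDerivAt (fun q : ℝ × ℝ => ((cen + ρ * Complex.exp (q.1 * Complex.I), q.2) : ℂ × ℝ))
        (((ContinuousLinearMap.smulRight (1 : ℝ →L[ℝ] ℝ)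
          ((ρ : ℂ) * (Complex.exp (q.1 * Complex.I) * Complex.I))).comp
            (ContinuousLinearMap.fst ℝ ℝ ℝ)).prod (ContinuousLinearMap.snd ℝ ℝ ℝ)) q :=
      ((hd q.1).hasFDerivAt.comp q hasFDerivAt_fst).prodMk hasFDerivAt_snd
    refine injective_comp hA ?_ (hmem q)
    intro a b hab
    simp only [ContinuousLinearMap.prod_apply, ContinuousLinearMap.comp_apply,
      ContinuousLinearMap.smulRight_apply, ContinuousLinearMap.coe_fst',
      ContinuousLinearMap.coe_snd', Prod.mk.injEq] at hab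
    have hne : (ρ : ℂ) * (Complex.exp (q.1 * Complex.I) * Complex.I) ≠ 0 :=
      mul_ne_zero (Complex.ofReal_ne_zero.2 hρ0.ne')
        (mul_ne_zero (Complex.exp_ne_zero _) Complex.I_ne_zero)
    refine Prod.ext ?_ hab.2
    exact smul_left_injective ℝ hne hab.1
  · intro φ θ
    constructor
    · have : Complex.exp (((φ + 2 * π : ℝ) : ℂ) * Complex.I) = Complex.exp (φ * Complex.I) := by
        push_cast
        rw [add_mul, Complex.exp_add, Complex.exp_two_pi_mul_I, mul_one]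
      simp only [this]
    · exact Phi_periodic _ _
  · intro q q' heq
    obtain ⟨h1, n, h2⟩ := Phi_inj (hmem q) (hmem q') heq
    have h3 := add_left_cancel h1
    have h4 := mul_left_cancel₀ (Complex.ofReal_ne_zero.2 hρ0.ne') h3
    obtain ⟨m, hm⟩ := Complex.exp_eq_exp_iff_exists_int.1 h4.symm
    refine ⟨m, n, Prod.ext ?_ h2⟩
    have h5 : ((q'.1 : ℂ) - (q.1 + m * (2 * π))) * Complex.I = 0 := by
      rw [sub_mul, hm]; ring
    have h6 := (mul_eq_zero.1 h5).resolve_right Complex.I_ne_zero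
    have h7 : ((q'.1 - (q.1 + m * (2 * π)) : ℝ) : ℂ) = 0 := by push_cast; exact h6
    have h8 := Complex.ofReal_eq_zero.1 h7
    change q'.1 = q.1 + m * (2 * π)
    linarith
  · ext x
    constructor
    · rintro ⟨hx, hg⟩
      obtain ⟨θ, -, hθ⟩ := exists_Phi hx
      refine ⟨(Complex.arg (g x), θ), ?_⟩
      change Phi (cen + ρ * Complex.exp (Complex.arg (g x) * Complex.I), θ) = x
      rw [← hg, Complex.norm_mul_exp_arg_mul_I, g, add_sub_cancel]
      exact hθ
    · rintro ⟨q, rfl⟩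
      refine ⟨Phi_mem_dom (hmem q) q.2, ?_⟩
      change ‖g (Phi (cen + ρ * Complex.exp (q.1 * Complex.I), q.2))‖ = ρ
      rw [g_Phi (hmem q), add_sub_cancel_left, hnorm]

theorem field_ne_zero {x : R3} (hx : x ∈ dom) : field x ≠ 0 := by
  intro h
  have h0 : U x = 0 := congrFun h 0
  have h1 : V x / 2 = 0 := congrFun h 1
  have h2 := rel_L hx
  have h3 := L_pos hx
  have h4 : V x = 0 := by linarith
  rw [h0, h4] at h2
  linarith

theorem isEmbeddedCircle_sph : IsEmbeddedCircle (sph 0) := by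
  have hc : ‖cen‖ < 1 := by rw [norm_cen]; norm_num
  refine ⟨fun t => Phi (cen, t), ?_, ?_, ?_, ?_, ?_⟩
  · have hA : ContDiff ℝ ∞ (fun t : ℝ => ((cen, t) : ℂ × ℝ)) := contDiff_const.prodMk contDiff_id
    rw [← contDiffOn_univ]
    exact contDiffOn_Phi.comp hA.contDiffOn fun t _ => hc
  · intro t
    rw [(hasDerivAt_Phi hc t).deriv]
    exact field_ne_zero (Phi_mem_dom hc t)
  · intro t
    exact Phi_periodic _ _
  · intro s t h
    exact (Phi_inj hc hc h).2
  · ext x
    constructor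
    · rintro ⟨hx, hg⟩
      obtain ⟨θ, -, hθ⟩ := exists_Phi hx
      refine ⟨θ, ?_⟩
      have h1 : wmap x = cen := by
        have := norm_eq_zero.1 hg
        exact sub_eq_zero.1 this
      change Phi (cen, θ) = x
      rw [← h1]
      exact hθ
    · rintro ⟨t, rfl⟩
      refine ⟨Phi_mem_dom hc t, ?_⟩
      change ‖g (Phi (cen, t))‖ = 0
      rw [g_Phi hc, sub_self, norm_zero]

theorem isMHDEquilibrium_tor : IsMHDEquilibrium (tor (1 / 2)) field pressure where
  smooth := ⟨dom, isOpen_dom, fun _ hx => hx.1, contDiffOn_field, contDiffOn_pressure⟩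
  balance := fun _ hx => balance_field hx.1
  divFree := fun _ hx => divergence_field hx.1
  tangent := by
    intro x hx
    rw [frontier_tor (by norm_num) (by norm_num)] at hx ⊢
    obtain ⟨θ, -, hθ⟩ := exists_Phi hx.1
    have hw := norm_wmap hx.1
    refine ⟨fun t => Phi (wmap x, θ + t), ?_, ?_, ?_⟩
    · change Phi (wmap x, θ + 0) = x
      rw [add_zero, hθ]
    · intro t
      refine ⟨Phi_mem_dom hw _, ?_⟩
      change ‖g (Phi (wmap x, θ + t))‖ = 1 / 2
      rw [g_Phi hw]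
      exact hx.2
    · have h := hasDerivAt_Phi hw θ
      rw [hθ] at h
      have h1 : HasDerivAt (fun t => Phi (wmap x, t)) (field x) (θ + 0) := by
        rw [add_zero]; exact h
      exact h1.comp_const_add θ 0

/-- The pressure has no critical points off the axis. -/
theorem gradient_pressure_ne {x : R3} (hx : x ∈ dom) (hg : g x ≠ 0) : gradient pressure x ≠ 0 := by
  intro hgrad
  have hdiff : DifferentiableAt ℝ pressure x :=
    (contDiffOn_pressure.contDiffAt (isOpen_dom.mem_nhds hx)).differentiableAt (by simp)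
  have hzero : fderiv ℝ pressure x = 0 := by
    ext v
    have hv : v = ∑ i, v i • (Pi.single i 1 : R3) := by
      ext j
      simp [Finset.sum_apply, Pi.single_apply]
    rw [hv, map_sum]
    refine Finset.sum_eq_zero fun i _ => ?_
    rw [map_smul]
    have : fderiv ℝ pressure x (Pi.single i 1) = 0 := congrFun hgrad i
    rw [this, smul_zero]
  obtain ⟨θ, -, hθ⟩ := exists_Phi hx
  have h1 : HasDerivAt (fun t => pressure (ray x θ t)) 0 0 := by
    have h2 : HasFDerivAt pressure (0 : R3 →L[ℝ] ℝ) (ray x θ 0) := by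
      rw [ray_zero hθ, ← hzero]
      exact hdiff.hasFDerivAt
    have h3 := h2.comp_hasDerivAt (0 : ℝ) (hasDerivAt_ray hx θ)
    exact h3
  have h4 : (fun t : ℝ => -(71 / 128) - ((1 + t) * ‖g x‖) ^ 2 / 2) =ᶠ[𝓝 0]
      (fun t => pressure (ray x θ t)) := by
    filter_upwards [ray_eventually hx] with t ht
    rw [pressure_g (ray_mem_dom ht), g_ray ht, norm_mul]
    have : ‖(1 + t : ℂ)‖ ^ 2 = (1 + t) ^ 2 := by
      have h5 : (1 + t : ℂ) = ((1 + t : ℝ) : ℂ) := by push_cast; ring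
      rw [h5, Complex.norm_real, Real.norm_eq_abs, sq_abs]
    rw [mul_pow, mul_pow, this]
  have h5 := h1.congr_of_eventuallyEq h4
  have h6 : HasDerivAt (fun t : ℝ => -(71 / 128) - ((1 + t) * ‖g x‖) ^ 2 / 2)
      (-(‖g x‖ ^ 2)) 0 := by
    have h7 := (((((hasDerivAt_id (0 : ℝ)).const_add 1).mul_const ‖g x‖).pow 2).div_const 2).const_sub
      (-(71 / 128))
    refine h7.congr_deriv ?_
    simp
    ring
  have h8 := h5.unique h6
  have h9 : ‖g x‖ ^ 2 = 0 := by linarith
  exact hg (norm_eq_zero.1 (pow_eq_zero_iff (by norm_num) |>.1 h9))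

theorem pressure_eq_iff {x y : R3} (hx : x ∈ dom) (hy : y ∈ dom) :
    pressure y = pressure x ↔ ‖g y‖ = ‖g x‖ := by
  rw [pressure_g hx, pressure_g hy]
  constructor
  · intro h
    have : ‖g y‖ ^ 2 = ‖g x‖ ^ 2 := by linarith
    exact (sq_eq_sq₀ (norm_nonneg _) (norm_nonneg _)).1 this
  · intro h
    rw [h]

theorem levelSet_eq {x : R3} (hx : x ∈ tor (1 / 2)) :
    levelSet (tor (1 / 2)) pressure x = sph ‖g x‖ := by
  ext y
  constructor
  · rintro ⟨hy, hp⟩
    exact ⟨hy.1, (pressure_eq_iff hx.1 hy.1).1 hp⟩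
  · rintro ⟨hy, hp⟩
    exact ⟨⟨hy, by rw [hp]; exact hx.2⟩, (pressure_eq_iff hx.1 hy).2 hp⟩

theorem nested_tor : HasToroidallyNestedLevelSets (tor (1 / 2)) pressure := by
  have hpos : ∀ x ∈ tor (1 / 2) \ sph 0, 0 < ‖g x‖ := by
    rintro x ⟨hx, hx0⟩
    refine lt_of_le_of_ne (norm_nonneg _) fun h => hx0 ⟨hx.1, h.symm⟩
  refine ⟨sph 0, isEmbeddedCircle_sph, ?_, ?_, ?_⟩
  · intro x hx
    rw [interior_tor (by norm_num)]
    exact ⟨hx.1, by rw [hx.2]; norm_num⟩
  · intro x hx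
    rw [levelSet_eq hx]
    by_cases h0 : ‖g x‖ = 0
    · left; rw [h0]
    · right
      have hp : 0 < ‖g x‖ := lt_of_le_of_ne (norm_nonneg _) (Ne.symm h0)
      refine ⟨isEmbeddedTorus_sph hp (lt_of_le_of_lt hx.2 (by norm_num)), ?_⟩
      rintro y ⟨hy, hyg⟩
      refine gradient_pressure_ne hy ?_
      rw [← norm_ne_zero_iff, hyg]
      exact h0
  · have hR : ∀ x ∈ tor (1 / 2), {z | z ∈ tor (1 / 2) ∧ ∃ y ∈ levelSet (tor (1 / 2)) pressure x,
        pressure y ≤ pressure z} = tor ‖g x‖ := by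
      intro x hx
      ext z
      constructor
      · rintro ⟨hz, y, hy, hyz⟩
        rw [levelSet_eq hx] at hy
        refine ⟨hz.1, ?_⟩
        rw [pressure_g hy.1, pressure_g hz.1, hy.2] at hyz
        have : ‖g z‖ ^ 2 ≤ ‖g x‖ ^ 2 := by linarith
        exact (sq_le_sq₀ (norm_nonneg _) (norm_nonneg _)).1 this
      · rintro ⟨hz, hzx⟩
        refine ⟨⟨hz, hzx.trans hx.2⟩, x, ⟨hx, rfl⟩, ?_⟩
        rw [pressure_g hx.1, pressure_g hz]
        have : ‖g z‖ ^ 2 ≤ ‖g x‖ ^ 2 := (sq_le_sq₀ (norm_nonneg _) (norm_nonneg _)).2 hzx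
        linarith
    refine ⟨fun S => {z | z ∈ tor (1 / 2) ∧ ∃ y ∈ S, pressure y ≤ pressure z}, ?_, ?_⟩
    · intro x hx
      have hp := hpos x hx
      have hlt : ‖g x‖ < 5 / 8 := lt_of_le_of_lt hx.1.2 (by norm_num)
      simp only [hR x hx.1]
      refine ⟨⟨isCompact_tor hlt, closure_interior_tor hp hlt, ?_⟩, ?_⟩
      · rw [frontier_tor hp hlt, levelSet_eq hx.1]
      · intro y hy
        rw [interior_tor hp]
        exact ⟨hy.1, by rw [hy.2]; exact hp⟩
    · intro x hx y hy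
      simp only [hR x hx.1, hR y hy.1]
      rcases le_total ‖g x‖ ‖g y‖ with h | h
      · left; exact fun z hz => ⟨hz.1, hz.2.trans h⟩
      · right; exact fun z hz => ⟨hz.1, hz.2.trans h⟩

end Pool.Agent.H29.Grad
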