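import Pool.Agent.H29.Grad.Nested

/-!
# The equilibrium is not axisymmetric
-/

open Set Real Filter

open scoped ContDiff Topology

namespace Pool.Agent.H29.Grad

/-- The point `(c, s / 2, 0)`. -/
noncomputable def pt (c s : ℝ) : R3 := ![c, s / 2, 0]

theorem pt_facts {c s : ℝ} (h : c ^ 2 + s ^ 2 = 1) :
    pt c s ∈ dom ∧ Q (pt c s) = 1 ∧ L (pt c s) = 1 ∧ U (pt c s) = -s ∧ V (pt c s) = c := by
  have h0 : pt c s 0 = c := rfl
  have h1 : pt c s 1 = s / 2 := rfl
  have h2 : pt c s 2 = 0 := rfl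
  have hQ : Q (pt c s) = 1 := by
    rw [Q, h0, h1]; linarith
  have hD : D (pt c s) = 1 := by
    rw [D, hQ, h2]; norm_num
  have hL : L (pt c s) = 1 := by
    rw [L, hD, Real.sqrt_one]
  refine ⟨?_, hQ, hL, ?_, ?_⟩
  · change 0 < D (pt c s)
    rw [hD]; norm_num
  · rw [U, hQ, hL, h0, h1, h2]; ring
  · rw [V, hQ, hL, h0, h1, h2]; ring

theorem pt_mem {c s : ℝ} (h : c ^ 2 + s ^ 2 = 1) : pt c s ∈ tor (1 / 2) := by
  obtain ⟨h1, h2, h3, h4, h5⟩ := pt_facts h
  refine ⟨h1, ?_⟩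
  have hw : wmap (pt c s) = 0 := by
    apply Complex.ext
    · change (pt c s 0 ^ 2 - 4 * pt c s 1 ^ 2 + U (pt c s) ^ 2 - V (pt c s) ^ 2) / 2 = 0
      rw [h4, h5]
      change (c ^ 2 - 4 * (s / 2) ^ 2 + (-s) ^ 2 - c ^ 2) / 2 = 0
      ring
    · change 2 * pt c s 0 * pt c s 1 + U (pt c s) * V (pt c s) = 0
      rw [h4, h5]
      change 2 * c * (s / 2) + (-s) * c = 0
      ring
  rw [g, hw, zero_sub, norm_neg, norm_cen]
  norm_num

theorem fderiv_pressure_pt {c s : ℝ} (h : c ^ 2 + s ^ 2 = 1) (v : R3)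
    (hv : fderiv ℝ pressure (pt c s) v = 0) :
    c * (c ^ 2 - s ^ 2) * v 0 + 2 * s * (c ^ 2 - s ^ 2) * v 1 + 2 * s * c * v 2 = 0 := by
  obtain ⟨h1, h2, h3, h4, h5⟩ := pt_facts h
  have h6 := hasFDerivAt_pressure h1 v
  obtain ⟨h7, h8⟩ := L_mul_deriv h1 v
  have e0 : pt c s 0 = c := rfl
  have e1 : pt c s 1 = s / 2 := rfl
  have e2 : pt c s 2 = 0 := rfl
  rw [hv, fderiv_Q, h2, h4, h5, e0, e1, e2] at h6
  rw [h3, h4, h5, e0, e1, one_mul] at h7 h8
  rw [h7, h8] at h6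
  linear_combination (4 / 3) * h6 + (4 / 3) * (c * v 0 + s / 2 * v 1) * h

theorem not_axisymmetric : ¬ IsAxisymmetric (tor (1 / 2)) field pressure := by
  rintro ⟨b, a, hb, -, -, hp⟩
  have key : ∀ c s : ℝ, c ^ 2 + s ^ 2 = 1 →
      c * (c ^ 2 - s ^ 2) * (b 1 * (0 - a 2) - b 2 * (s / 2 - a 1)) +
      2 * s * (c ^ 2 - s ^ 2) * (b 2 * (c - a 0) - b 0 * (0 - a 2)) +
      2 * s * c * (b 0 * (s / 2 - a 1) - b 1 * (c - a 0)) = 0 := by
    intro c s h
    have h1 := fderiv_pressure_pt h _ (hp _ (pt_mem h))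
    rw [cross_apply] at h1
    exact h1
  have k1 := key 1 0 (by norm_num)
  have k2 := key 0 1 (by norm_num)
  have k3 := key (3 / 5) (4 / 5) (by norm_num)
  have k4 := key (-(3 / 5)) (4 / 5) (by norm_num)
  have k5 := key (3 / 5) (-(4 / 5)) (by norm_num)
  have k6 := key (-(3 / 5)) (-(4 / 5)) (by norm_num)
  have k7 := key (4 / 5) (3 / 5) (by norm_num)
  apply hb
  have hb0 : b 0 = 0 := by linarith
  have hb1 : b 1 = 0 := by linarith
  have hb2 : b 2 = 0 := by linarith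
  ext i
  fin_cases i
  · exact hb0
  · exact hb1
  · exact hb2

theorem solidTorus_eq : solidTorus = tor (1 / 2) := by
  ext x
  constructor
  · rintro ⟨h1, h2⟩
    refine ⟨h1, ?_⟩
    rw [pressure_g h1] at h2
    nlinarith [norm_nonneg (g x)]
  · rintro ⟨h1, h2⟩
    refine ⟨h1, ?_⟩
    rw [pressure_g h1]
    nlinarith [norm_nonneg (g x)]

/-- The explicit pair `(field, pressure)` is an equilibrium on a solid toroidal domain, the
pressure has toroidally nested level sets, and the equilibrium is not axisymmetric. -/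
theorem counterexample :
    IsSolidTorus solidTorus ∧ IsMHDEquilibrium solidTorus field pressure ∧
      HasToroidallyNestedLevelSets solidTorus pressure ∧
      ¬ IsAxisymmetric solidTorus field pressure := by
  rw [solidTorus_eq]
  exact ⟨isSolidTorus_tor, isMHDEquilibrium_tor, nested_tor, not_axisymmetric⟩

end Pool.Agent.H29.Grad
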