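import Pool.Agent.H29.Grad.Param

/-!
# Smoothness of the parametrisation
-/

open Set Real

open scoped ContDiff Topology

namespace Pool.Agent.H29.Grad

theorem pressure_eq {x : R3} (hx : x ∈ dom) :
    pressure x = -(71 / 128) - nsq (wmap x + 3 / 8) / 2 := by
  have hE := rel_E hx
  have hn := nsq_wmap hx
  have hL2 := L_sq hx
  have hD : D x = 1 - (Q x - 1) ^ 2 - 4 * x 2 ^ 2 := rfl
  have hre : (wmap x).re = (x 0 ^ 2 - 4 * x 1 ^ 2 + U x ^ 2 - V x ^ 2) / 2 := rfl
  have h1 : nsq (wmap x + 3 / 8) = nsq (wmap x) + 3 / 4 * (wmap x).re + 9 / 64 := by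
    have h38 : (3 / 8 : ℂ) = ((3 / 8 : ℝ) : ℂ) := by push_cast; ring
    rw [nsq, nsq, h38, Complex.add_re, Complex.add_im, Complex.ofReal_re, Complex.ofReal_im]
    ring
  have hQ : Q x = x 0 ^ 2 + 4 * x 1 ^ 2 := rfl
  rw [h1, hn, hL2, hD, hre, pressure]
  rw [hQ] at hE ⊢
  linear_combination (-5 / 16) * hE

theorem hasDerivAt_Phi {w : ℂ} (h : ‖w‖ < 1) (θ : ℝ) :
    HasDerivAt (fun t => Phi (w, t)) (field (Phi (w, θ))) θ := by
  have hk := (kap_pos w).ne'
  have h1 : 2 * kap w * ma w θ = w.re * cos θ + w.im * sin θ := by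
    unfold ma; field_simp
  have h2 : 2 * kap w * mb w θ = w.im * cos θ - w.re * sin θ := by
    unfold mb; field_simp
  have hc := Real.hasDerivAt_cos θ
  have hs := Real.hasDerivAt_sin θ
  rw [hasDerivAt_pi]
  intro i
  fin_cases i
  · change HasDerivAt (fun t => kap w * cos t + (w.re * cos t + w.im * sin t) / (2 * kap w))
      (U (Phi (w, θ))) θ
    rw [U_Phi h]
    refine ((hc.const_mul (kap w)).add (((hc.const_mul w.re).add
      (hs.const_mul w.im)).div_const (2 * kap w))).congr_deriv ?_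
    unfold mb
    ring
  · change HasDerivAt (fun t => (kap w * sin t + (w.im * cos t - w.re * sin t) / (2 * kap w)) / 2)
      (V (Phi (w, θ)) / 2) θ
    rw [V_Phi h]
    refine (((hs.const_mul (kap w)).add (((hc.const_mul w.im).sub
      (hs.const_mul w.re)).div_const (2 * kap w))).div_const 2).congr_deriv ?_
    unfold ma
    ring
  · change HasDerivAt (fun t => (w.re * (2 * sin t * cos t) - w.im * (cos t ^ 2 - sin t ^ 2)) / 2)
      (Q (Phi (w, θ)) - 1) θ
    rw [Q_Phi h]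
    refine ((((((hs.const_mul 2).mul hc).const_mul w.re).sub
      (((hc.pow 2).sub (hs.pow 2)).const_mul w.im))).div_const 2).congr_deriv ?_
    simp only [Nat.cast_ofNat, Nat.add_one_sub_one, pow_one]
    linear_combination (-cos θ) * h1 - sin θ * h2

theorem contDiff_nsq_fst : ContDiff ℝ ∞ (fun q : ℂ × ℝ => nsq q.1) := by
  unfold nsq
  exact ((Complex.reCLM.contDiff.comp contDiff_fst).pow 2).add
    ((Complex.imCLM.contDiff.comp contDiff_fst).pow 2)

theorem contDiffOn_ell : ContDiffOn ℝ ∞ (fun q : ℂ × ℝ => ell q.1) (openTube 1) := by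
  intro q hq
  have h : 1 - nsq q.1 ≠ 0 := by
    have := nsq_lt hq
    linarith
  exact ((contDiff_const.sub contDiff_nsq_fst).contDiffAt.sqrt h).contDiffWithinAt

theorem contDiffOn_kap : ContDiffOn ℝ ∞ (fun q : ℂ × ℝ => kap q.1) (openTube 1) := by
  unfold kap
  refine ContDiffOn.sqrt ((contDiffOn_const.add contDiffOn_ell).div_const 2) ?_
  intro q _
  have := ell_nonneg q.1
  simp only [ne_eq]
  linarith

theorem contDiffOn_Phi : ContDiffOn ℝ ∞ Phi (openTube 1) := by
  have hre : ContDiff ℝ ∞ (fun q : ℂ × ℝ => q.1.re) := Complex.reCLM.contDiff.comp contDiff_fst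
  have him : ContDiff ℝ ∞ (fun q : ℂ × ℝ => q.1.im) := Complex.imCLM.contDiff.comp contDiff_fst
  have hc : ContDiff ℝ ∞ (fun q : ℂ × ℝ => cos q.2) := Real.contDiff_cos.comp contDiff_snd
  have hs : ContDiff ℝ ∞ (fun q : ℂ × ℝ => sin q.2) := Real.contDiff_sin.comp contDiff_snd
  have hk0 : ∀ q ∈ openTube 1, 2 * kap q.1 ≠ 0 := fun q _ => by
    have := kap_pos q.1
    positivity
  have hma : ContDiffOn ℝ ∞ (fun q : ℂ × ℝ => ma q.1 q.2) (openTube 1) := by
    unfold ma
    exact ((hre.mul hc).add (him.mul hs)).contDiffOn.div (contDiffOn_const.mul contDiffOn_kap) hk0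
  have hmb : ContDiffOn ℝ ∞ (fun q : ℂ × ℝ => mb q.1 q.2) (openTube 1) := by
    unfold mb
    exact ((him.mul hc).sub (hre.mul hs)).contDiffOn.div (contDiffOn_const.mul contDiffOn_kap) hk0
  rw [contDiffOn_pi]
  intro i
  fin_cases i
  · exact (contDiffOn_kap.mul hc.contDiffOn).add hma
  · exact ((contDiffOn_kap.mul hs.contDiffOn).add hmb).div_const 2
  · change ContDiffOn ℝ ∞ (fun q : ℂ × ℝ => (q.1.re * (2 * sin q.2 * cos q.2) -
      q.1.im * (cos q.2 ^ 2 - sin q.2 ^ 2)) / 2) (openTube 1)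
    exact (((hre.mul ((contDiff_const.mul hs).mul hc)).sub
      (him.mul ((hc.pow 2).sub (hs.pow 2)))).div_const 2).contDiffOn

theorem isOpen_openTube (r : ℝ) : IsOpen (openTube r) :=
  isOpen_lt (continuous_norm.comp continuous_fst) continuous_const

theorem mem_openTube {r : ℝ} {w : ℂ} {θ : ℝ} : (w, θ) ∈ openTube r ↔ ‖w‖ < r := Iff.rfl

/-- The pair of the two coordinate functions. -/
noncomputable def chart (x : R3) : ℂ × ℂ := (wmap x, emap x)

theorem contDiffOn_wmap : ContDiffOn ℝ ∞ wmap dom := by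
  have h : wmap = fun x => ((((x 0 ^ 2 - 4 * x 1 ^ 2 + U x ^ 2 - V x ^ 2) / 2 : ℝ) : ℂ) +
      ((2 * x 0 * x 1 + U x * V x : ℝ) : ℂ) * Complex.I) := by
    funext x
    rw [← Complex.mk_eq_add_mul_I]
    rfl
  rw [h]
  have h1 : ContDiffOn ℝ ∞ (fun x : R3 => (x 0 ^ 2 - 4 * x 1 ^ 2 + U x ^ 2 - V x ^ 2) / 2) dom :=
    (((((contDiff_coord 0).pow 2).sub (contDiff_const.mul ((contDiff_coord 1).pow 2))).contDiffOn.add
      (contDiffOn_U.pow 2)).sub (contDiffOn_V.pow 2)).div_const 2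
  have h2 : ContDiffOn ℝ ∞ (fun x : R3 => 2 * x 0 * x 1 + U x * V x) dom :=
    ((contDiff_const.mul (contDiff_coord 0)).mul (contDiff_coord 1)).contDiffOn.add
      (contDiffOn_U.mul contDiffOn_V)
  exact (Complex.ofRealCLM.contDiff.comp_contDiffOn h1).add
    ((Complex.ofRealCLM.contDiff.comp_contDiffOn h2).mul contDiffOn_const)

theorem contDiffOn_emap : ContDiffOn ℝ ∞ emap dom := by
  have h : emap = fun x => ((((x 0 + V x) / (2 * √((1 + L x) / 2)) : ℝ) : ℂ) +
      (((2 * x 1 - U x) / (2 * √((1 + L x) / 2)) : ℝ) : ℂ) * Complex.I) := by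
    funext x
    rw [← Complex.mk_eq_add_mul_I]
    rfl
  rw [h]
  have hs : ContDiffOn ℝ ∞ (fun x : R3 => 2 * √((1 + L x) / 2)) dom := by
    refine contDiffOn_const.mul (ContDiffOn.sqrt ((contDiffOn_const.add contDiffOn_L).div_const 2) ?_)
    intro x hx
    have := L_pos hx
    simp only [ne_eq]
    linarith
  have hs0 : ∀ x ∈ dom, 2 * √((1 + L x) / 2) ≠ 0 := by
    intro x hx
    have := L_pos hx
    have : 0 < √((1 + L x) / 2) := Real.sqrt_pos.2 (by linarith)
    positivity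
  have h1 : ContDiffOn ℝ ∞ (fun x : R3 => (x 0 + V x) / (2 * √((1 + L x) / 2))) dom :=
    ((contDiff_coord 0).contDiffOn.add contDiffOn_V).div hs hs0
  have h2 : ContDiffOn ℝ ∞ (fun x : R3 => (2 * x 1 - U x) / (2 * √((1 + L x) / 2))) dom :=
    ((contDiff_const.mul (contDiff_coord 1)).contDiffOn.sub contDiffOn_U).div hs hs0
  exact (Complex.ofRealCLM.contDiff.comp_contDiffOn h1).add
    ((Complex.ofRealCLM.contDiff.comp_contDiffOn h2).mul contDiffOn_const)

theorem chart_Phi {w : ℂ} (h : ‖w‖ < 1) (θ : ℝ) :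
    chart (Phi (w, θ)) = (w, Complex.exp (θ * Complex.I)) := by
  rw [chart, wmap_Phi h, emap_Phi h]
  congr 1
  rw [Complex.exp_mul_I, ← Complex.ofReal_cos, ← Complex.ofReal_sin, ← Complex.mk_eq_add_mul_I]

/-- The parametrisation is an immersion. -/
theorem injective_fderiv_Phi {q : ℂ × ℝ} (hq : q ∈ openTube 1) :
    Function.Injective (fderiv ℝ Phi q) := by
  have hPhi : DifferentiableAt ℝ Phi q :=
    (contDiffOn_Phi.contDiffAt ((isOpen_openTube 1).mem_nhds hq)).differentiableAt (by simp)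
  have hmem : Phi q ∈ dom := Phi_mem_dom hq q.2
  have hchart : DifferentiableAt ℝ chart (Phi q) :=
    (((contDiffOn_wmap.prodMk contDiffOn_emap).contDiffAt
      (isOpen_dom.mem_nhds hmem)).differentiableAt (by simp))
  have hcomp := hchart.hasFDerivAt.comp q hPhi.hasFDerivAt
  have h1 : (fun q : ℂ × ℝ => (q.1, Complex.exp (q.2 * Complex.I))) =ᶠ[𝓝 q] chart ∘ Phi := by
    filter_upwards [(isOpen_openTube 1).mem_nhds hq] with q' hq'
    exact (chart_Phi hq' q'.2).symm
  have h2 := hcomp.congr_of_eventuallyEq h1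
  have h3 : HasFDerivAt (fun q : ℂ × ℝ => (q.1, Complex.exp (q.2 * Complex.I)))
      ((ContinuousLinearMap.fst ℝ ℂ ℝ).prod (((Complex.exp (q.2 * Complex.I) * Complex.I) •
        Complex.ofRealCLM).comp (ContinuousLinearMap.snd ℝ ℂ ℝ))) q := by
    refine hasFDerivAt_fst.prodMk ?_
    have hd : HasDerivAt (fun t : ℝ => Complex.exp (t * Complex.I))
        (Complex.exp (q.2 * Complex.I) * Complex.I) q.2 := by
      have h := ((Complex.ofRealCLM.hasDerivAt (x := q.2)).mul_const Complex.I).cexp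
      simpa using h
    refine (hd.hasFDerivAt.comp q hasFDerivAt_snd).congr_fderiv ?_
    ext v <;> simp
  have h4 := h2.unique h3
  intro a b hab
  have h5 : (fderiv ℝ chart (Phi q)) (fderiv ℝ Phi q a) = (fderiv ℝ chart (Phi q)) (fderiv ℝ Phi q b) := by
    rw [hab]
  have h6 : ∀ v, (fderiv ℝ chart (Phi q)) (fderiv ℝ Phi q v) =
      (v.1, (Complex.exp (q.2 * Complex.I) * Complex.I) * v.2) := by
    intro v
    have := congrArg (fun A : ℂ × ℝ →L[ℝ] ℂ × ℂ => A v) h4
    simpa using this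
  rw [h6, h6] at h5
  rw [Prod.mk.injEq] at h5
  refine Prod.ext h5.1 ?_
  have h7 : Complex.exp (q.2 * Complex.I) * Complex.I ≠ 0 :=
    mul_ne_zero (Complex.exp_ne_zero _) Complex.I_ne_zero
  exact_mod_cast mul_left_cancel₀ h7 h5.2

end Pool.Agent.H29.Grad
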