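import Pool.Agent.H29.Grad.Param2

/-!
# The solid tori `|w + 3/8| ≤ ρ`
-/

open Set Real Filter

open scoped ContDiff Topology

namespace Pool.Agent.H29.Grad

/-- The point `-3/8`. -/
noncomputable def cen : ℂ := -(3 / 8)

theorem norm_cen : ‖cen‖ = 3 / 8 := by
  rw [cen, norm_neg]
  have : (3 / 8 : ℂ) = ((3 / 8 : ℝ) : ℂ) := by push_cast; ring
  rw [this, Complex.norm_real]
  norm_num

/-- `g = w + 3/8`. -/
noncomputable def g (x : R3) : ℂ := wmap x - cen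

theorem pressure_g {x : R3} (hx : x ∈ dom) : pressure x = -(71 / 128) - ‖g x‖ ^ 2 / 2 := by
  rw [pressure_eq hx, nsq_eq, g, cen, sub_neg_eq_add]

theorem norm_lt_one {w : ℂ} {ρ : ℝ} (hρ : ρ < 5 / 8) (h : ‖w - cen‖ ≤ ρ) : ‖w‖ < 1 := by
  have h1 : ‖w‖ ≤ ‖w - cen‖ + ‖cen‖ := by
    have := norm_add_le (w - cen) cen
    rwa [sub_add_cancel] at this
  rw [norm_cen] at h1
  linarith

theorem norm_lt_one' {v : ℂ} (h : ‖v‖ < 5 / 8) : ‖cen + v‖ < 1 := by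
  have h1 := norm_add_le cen v
  rw [norm_cen] at h1
  linarith

theorem Phi_periodic (w : ℂ) (θ : ℝ) : Phi (w, θ + 2 * π) = Phi (w, θ) := by
  unfold Phi ma mb pz
  simp only [Real.cos_add_two_pi, Real.sin_add_two_pi]

theorem Phi_inj {w w' : ℂ} {θ θ' : ℝ} (h : ‖w‖ < 1) (h' : ‖w'‖ < 1)
    (heq : Phi (w, θ) = Phi (w', θ')) : w = w' ∧ ∃ n : ℤ, θ' = θ + n * (2 * π) := by
  have h1 := congrArg chart heq
  rw [chart_Phi h, chart_Phi h', Prod.mk.injEq] at h1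
  refine ⟨h1.1, ?_⟩
  obtain ⟨n, hn⟩ := Complex.exp_eq_exp_iff_exists_int.1 h1.2.symm
  refine ⟨n, ?_⟩
  have h2 : ((θ' : ℂ) - (θ + n * (2 * π))) * Complex.I = 0 := by
    rw [sub_mul, hn]; ring
  have h3 := (mul_eq_zero.1 h2).resolve_right Complex.I_ne_zero
  have h4 : ((θ' - (θ + n * (2 * π)) : ℝ) : ℂ) = 0 := by push_cast; exact h3
  have h5 := Complex.ofReal_eq_zero.1 h4
  linarith

/-- The solid torus `|w + 3/8| ≤ ρ`. -/
def tor (ρ : ℝ) : Set R3 := {x | x ∈ dom ∧ ‖g x‖ ≤ ρ}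

/-- The torus `|w + 3/8| = ρ`. -/
def sph (ρ : ℝ) : Set R3 := {x | x ∈ dom ∧ ‖g x‖ = ρ}

theorem g_Phi {w : ℂ} (h : ‖w‖ < 1) (θ : ℝ) : g (Phi (w, θ)) = w - cen := by
  rw [g, wmap_Phi h]

theorem continuousOn_g : ContinuousOn g dom :=
  (contDiffOn_wmap.continuousOn).sub continuousOn_const

theorem tor_eq_image {ρ : ℝ} (hρ : ρ < 5 / 8) :
    tor ρ = Phi '' ({w : ℂ | ‖w - cen‖ ≤ ρ} ×ˢ Icc (-π) π) := by
  ext x
  constructor
  · rintro ⟨hx, hg⟩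
    obtain ⟨θ, hθ, h⟩ := exists_Phi hx
    exact ⟨(wmap x, θ), ⟨hg, hθ⟩, h⟩
  · rintro ⟨⟨w, θ⟩, ⟨hw, -⟩, rfl⟩
    have h1 := norm_lt_one hρ hw
    refine ⟨Phi_mem_dom h1 θ, ?_⟩
    rw [g_Phi h1]
    exact hw

theorem isCompact_tor {ρ : ℝ} (hρ : ρ < 5 / 8) : IsCompact (tor ρ) := by
  rw [tor_eq_image hρ]
  have hK : IsCompact ({w : ℂ | ‖w - cen‖ ≤ ρ} ×ˢ Icc (-π) π) := by
    refine IsCompact.prod ?_ isCompact_Icc
    have : {w : ℂ | ‖w - cen‖ ≤ ρ} = Metric.closedBall cen ρ := by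
      ext w
      rw [mem_ofPred_eq, Metric.mem_closedBall, dist_eq_norm]
    rw [this]
    exact isCompact_closedBall _ _
  refine hK.image_of_continuousOn ?_
  refine contDiffOn_Phi.continuousOn.mono ?_
  rintro ⟨w, θ⟩ ⟨hw, -⟩
  exact norm_lt_one hρ hw

/-- The radial path through `x`. -/
noncomputable def ray (x : R3) (θ : ℝ) (t : ℝ) : R3 := Phi (wmap x + t * g x, θ)

theorem ray_zero {x : R3} {θ : ℝ} (h : Phi (wmap x, θ) = x) : ray x θ 0 = x := by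
  simp [ray, h]

theorem ray_eventually {x : R3} (hx : x ∈ dom) : ∀ᶠ t : ℝ in 𝓝 0, ‖wmap x + t * g x‖ < 1 := by
  have h : ContinuousAt (fun t : ℝ => ‖wmap x + t * g x‖) 0 := by fun_prop
  have h0 : ‖wmap x + (0 : ℝ) * g x‖ < 1 := by simpa using norm_wmap hx
  exact h.eventually_lt continuousAt_const h0

theorem hasDerivAt_arg {x : R3} {θ : ℝ} :
    HasDerivAt (fun t : ℝ => ((wmap x + t * g x, θ) : ℂ × ℝ)) (g x, 0) 0 := by
  refine HasDerivAt.prodMk ?_ (hasDerivAt_const _ _)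
  have h := ((Complex.ofRealCLM.hasDerivAt (x := (0 : ℝ))).mul_const (g x)).const_add (wmap x)
  simpa using h

theorem hasDerivAt_ray {x : R3} (hx : x ∈ dom) (θ : ℝ) :
    HasDerivAt (ray x θ) (fderiv ℝ Phi (wmap x, θ) (g x, 0)) 0 := by
  have hq : ((wmap x + ((0 : ℝ) : ℂ) * g x, θ) : ℂ × ℝ) ∈ openTube 1 := by
    change ‖wmap x + ((0 : ℝ) : ℂ) * g x‖ < 1
    simpa using norm_wmap hx
  have hPhi : DifferentiableAt ℝ Phi (wmap x + ((0 : ℝ) : ℂ) * g x, θ) :=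
    (contDiffOn_Phi.contDiffAt ((isOpen_openTube 1).mem_nhds hq)).differentiableAt (by simp)
  have h1 := hPhi.hasFDerivAt.comp_hasDerivAt (0 : ℝ) (hasDerivAt_arg (x := x) (θ := θ))
  have h2 : ((wmap x + ((0 : ℝ) : ℂ) * g x, θ) : ℂ × ℝ) = (wmap x, θ) := by simp
  rw [h2] at h1
  exact h1

theorem continuousAt_ray {x : R3} (hx : x ∈ dom) (θ : ℝ) :
    ContinuousAt (ray x θ) 0 := (hasDerivAt_ray hx θ).continuousAt

theorem g_ray {x : R3} {θ t : ℝ} (h : ‖wmap x + t * g x‖ < 1) :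
    g (ray x θ t) = (1 + t) * g x := by
  rw [ray, g_Phi h, g]; ring

theorem ray_mem_dom {x : R3} {θ t : ℝ} (h : ‖wmap x + t * g x‖ < 1) : ray x θ t ∈ dom :=
  Phi_mem_dom h θ

theorem interior_tor {ρ : ℝ} (hρ0 : 0 < ρ) :
    interior (tor ρ) = {x | x ∈ dom ∧ ‖g x‖ < ρ} := by
  apply Subset.antisymm
  · intro x hx
    obtain ⟨hxd, hxg⟩ := interior_subset hx
    refine ⟨hxd, lt_of_le_of_ne hxg fun heq => ?_⟩
    obtain ⟨θ, -, hθ⟩ := exists_Phi hxd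
    have h1 : ∀ᶠ t in 𝓝 (0 : ℝ), ray x θ t ∈ tor ρ := by
      have h2 := continuousAt_ray hxd θ
      have h3 : tor ρ ∈ 𝓝 (ray x θ 0) := by
        rw [ray_zero hθ]; exact mem_interior_iff_mem_nhds.1 hx
      exact h2 h3
    have h4 : ∀ᶠ t in 𝓝[>] (0 : ℝ), ray x θ t ∈ tor ρ ∧ ‖wmap x + t * g x‖ < 1 ∧ 0 < t :=
      ((h1.and (ray_eventually hxd)).filter_mono nhdsWithin_le_nhds).and
        self_mem_nhdsWithin |>.mono fun t ht => ⟨ht.1.1, ht.1.2, ht.2⟩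
    obtain ⟨t, h5, h6, h7⟩ := h4.exists
    have h8 := h5.2
    rw [g_ray h6, norm_mul, heq] at h8
    have h9 : ‖(1 + t : ℂ)‖ = 1 + t := by
      have : (1 + t : ℂ) = ((1 + t : ℝ) : ℂ) := by push_cast; ring
      rw [this, Complex.norm_real, Real.norm_eq_abs, abs_of_pos (by linarith)]
    rw [h9] at h8
    nlinarith
  · refine interior_maximal (fun x hx => ⟨hx.1, hx.2.le⟩) ?_
    have : {x | x ∈ dom ∧ ‖g x‖ < ρ} = dom ∩ (fun x => ‖g x‖) ⁻¹' Iio ρ := rfl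
    rw [this]
    exact continuousOn_g.norm.isOpen_inter_preimage isOpen_dom isOpen_Iio

theorem closure_interior_tor {ρ : ℝ} (hρ0 : 0 < ρ) (hρ : ρ < 5 / 8) :
    closure (interior (tor ρ)) = tor ρ := by
  apply Subset.antisymm
  · exact closure_minimal interior_subset (isCompact_tor hρ).isClosed
  · intro x hx
    obtain ⟨hxd, hxg⟩ := hx
    obtain ⟨θ, -, hθ⟩ := exists_Phi hxd
    have h2 : Tendsto (ray x θ) (𝓝[<] 0) (𝓝 x) := by
      have := continuousAt_ray hxd θ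
      rw [ContinuousAt, ray_zero hθ] at this
      exact this.mono_left nhdsWithin_le_nhds
    refine mem_closure_of_tendsto h2 ?_
    have h3 : ∀ᶠ t in 𝓝[<] (0 : ℝ), -1 < t :=
      (eventually_gt_nhds (by norm_num : (-1 : ℝ) < 0)).filter_mono nhdsWithin_le_nhds
    have h4 : ∀ᶠ t : ℝ in 𝓝[<] (0 : ℝ), ‖wmap x + t * g x‖ < 1 :=
      (ray_eventually hxd).filter_mono nhdsWithin_le_nhds
    filter_upwards [h3, h4, self_mem_nhdsWithin] with t ht1 ht2 ht3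
    rw [interior_tor hρ0]
    refine ⟨ray_mem_dom ht2, ?_⟩
    have ht3' : t < 0 := ht3
    have h9 : ‖(1 + t : ℂ)‖ = 1 + t := by
      have : (1 + t : ℂ) = ((1 + t : ℝ) : ℂ) := by push_cast; ring
      rw [this, Complex.norm_real, Real.norm_eq_abs, abs_of_pos (by linarith)]
    rw [g_ray ht2, norm_mul, h9]
    nlinarith [norm_nonneg (g x)]

theorem frontier_tor {ρ : ℝ} (hρ0 : 0 < ρ) (hρ : ρ < 5 / 8) : frontier (tor ρ) = sph ρ := by
  rw [(isCompact_tor hρ).isClosed.frontier_eq, interior_tor hρ0]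
  ext x
  constructor
  · rintro ⟨⟨h1, h2⟩, h3⟩
    refine ⟨h1, le_antisymm h2 ?_⟩
    by_contra h4
    exact h3 ⟨h1, not_le.1 h4⟩
  · rintro ⟨h1, h2⟩
    exact ⟨⟨h1, h2.le⟩, fun h3 => absurd h3.2 (by rw [h2]; exact lt_irrefl _)⟩

end Pool.Agent.H29.Grad
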